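import Mathlib
import Pool.Agent.Y881.CS.Stm

/-!
# Chang's inequality for a set of characters dissociated relative to a set
-/

set_option autoImplicit false

namespace Pool.Agent.Y162.CS

open Finset Pool.Agent.TH858 Pool.Agent.TH858.GP Pool.Agent.Y881.CS

section
variable {N : ℕ} [NeZero N]

/-- the coefficient of the `j`-th term -/
noncomputable def W (C D : ℝ) (c : ZMod N → ℂ) (l : ZMod N) (j : ℤ) : ℂ :=
  if j = 0 then (C : ℂ) else if j = 1 then (D / 2 : ℝ) * c l else (D / 2 : ℝ) * (starRingEnd ℂ) (c l)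

lemma W_sum (C D : ℝ) (c : ZMod N → ℂ) (l y : ZMod N) :
    ((C + (c l * ψ (l * y)).re * D : ℝ) : ℂ) =
      ∑ j ∈ ({-1, 0, 1} : Finset ℤ), W C D c l j * ψ ((j : ZMod N) * l * y) := by
  have h1 : ∑ j ∈ ({-1, 0, 1} : Finset ℤ), W C D c l j * ψ ((j : ZMod N) * l * y) =
      W C D c l (-1) * ψ (((-1 : ℤ) : ZMod N) * l * y) + (W C D c l 0 * ψ (((0 : ℤ) : ZMod N) * l * y) +
        W C D c l 1 * ψ (((1 : ℤ) : ZMod N) * l * y)) := by
    rw [Finset.sum_insert (by decide), Finset.sum_insert (by decide), Finset.sum_singleton]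
  rw [h1]
  have h2 : ψ (((-1 : ℤ) : ZMod N) * l * y) = (starRingEnd ℂ) (ψ (l * y)) := by
    rw [← ψ_neg]; congr 1; push_cast; ring
  have h3 : ψ (((0 : ℤ) : ZMod N) * l * y) = 1 := by
    have : ((0 : ℤ) : ZMod N) * l * y = 0 := by push_cast; ring
    rw [this, ψ_zero]
  have h4 : ψ (((1 : ℤ) : ZMod N) * l * y) = ψ (l * y) := by
    congr 1; push_cast; ring
  rw [h2, h3, h4]
  have e1 : W C D c l (-1) = (D / 2 : ℝ) * (starRingEnd ℂ) (c l) := by
    unfold W; rw [if_neg (by decide), if_neg (by decide)]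
  have e2 : W C D c l 0 = (C : ℂ) := by unfold W; rw [if_pos rfl]
  have e3 : W C D c l 1 = (D / 2 : ℝ) * c l := by
    unfold W; rw [if_neg (by decide), if_pos rfl]
  rw [e1, e2, e3]
  have h5 : (starRingEnd ℂ) (c l) * (starRingEnd ℂ) (ψ (l * y)) + c l * ψ (l * y) =
      ((2 * (c l * ψ (l * y)).re : ℝ) : ℂ) := by
    rw [← map_mul, add_comm, Complex.add_conj]
  push_cast at h5 ⊢
  linear_combination (-(D : ℂ) / 2) * h5

lemma W_norm (C D : ℝ) (hC : 0 ≤ C) (hD : 0 ≤ D) (c : ZMod N → ℂ) (l : ZMod N) (hc : ‖c l‖ ≤ 1) :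
    ∑ j ∈ ({-1, 0, 1} : Finset ℤ), ‖W C D c l j‖ ≤ C + D := by
  rw [Finset.sum_insert (by decide), Finset.sum_insert (by decide), Finset.sum_singleton]
  have e1 : ‖W C D c l (-1)‖ ≤ D / 2 := by
    unfold W; rw [if_neg (by decide), if_neg (by decide), norm_mul, Complex.norm_real, RCLike.norm_conj,
      Real.norm_of_nonneg (by positivity)]
    nlinarith
  have e2 : ‖W C D c l 0‖ = C := by
    unfold W; rw [if_pos rfl, Complex.norm_real, Real.norm_of_nonneg hC]
  have e3 : ‖W C D c l 1‖ ≤ D / 2 := by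
    unfold W; rw [if_neg (by decide), if_pos rfl, norm_mul, Complex.norm_real,
      Real.norm_of_nonneg (by positivity)]
    nlinarith
  rw [e2]; linarith

/-- expansion of the product -/
lemma expand (C D : ℝ) (c : ZMod N → ℂ) (X Λ : Finset (ZMod N)) :
    ((∑ y ∈ X, ∏ l ∈ Λ, (C + (c l * ψ (l * y)).re * D) : ℝ) : ℂ) =
      ∑ e ∈ Fintype.piFinset (fun _ : Λ => ({-1, 0, 1} : Finset ℤ)),
        (∏ l : Λ, W C D c l (e l)) * ∑ y ∈ X, ψ ((∑ l : Λ, (e l : ZMod N) * l) * y) := by
  push_cast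
  simp_rw [Finset.mul_sum]
  rw [Finset.sum_comm]
  refine Finset.sum_congr rfl fun y _ => ?_
  have h1 : ∏ l ∈ Λ, ((C : ℂ) + ((c l * ψ (l * y)).re : ℂ) * (D : ℂ)) =
      ∏ l : Λ, ∑ j ∈ ({-1, 0, 1} : Finset ℤ), W C D c l j * ψ ((j : ZMod N) * (l : ZMod N) * y) := by
    rw [← Finset.prod_coe_sort Λ (fun l => ((C : ℂ) + ((c l * ψ (l * y)).re : ℂ) * (D : ℂ)))]
    refine Finset.prod_congr rfl fun l _ => ?_
    rw [← W_sum]
    push_cast
    rfl
  rw [h1, Finset.prod_univ_sum]
  refine Finset.sum_congr rfl fun e _ => ?_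
  rw [Finset.prod_mul_distrib]
  congr 1
  have h2 : ∀ s : Finset Λ, ∏ l ∈ s, ψ ((e l : ZMod N) * (l : ZMod N) * y) =
      ψ ((∑ l ∈ s, (e l : ZMod N) * (l : ZMod N)) * y) := by
    intro s
    classical
    induction s using Finset.induction_on with
    | empty => simp [ψ_zero]
    | insert a s ha ih => rw [Finset.prod_insert ha, Finset.sum_insert ha, add_mul, ψ_add, ih]
  exact h2 _

end

theorem t_CHD : S_CHD := by
  intro N _ X T Λ q k₀ hTX hT hXT hΛ hk hdis
  classical
  set S : ZMod N → ℂ := fun l => ∑ y ∈ T, ψ (l * y) with hS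
  set c : ZMod N → ℂ := fun l => (starRingEnd ℂ) (S l) / (‖S l‖ : ℂ) with hc
  have hTpos : (0 : ℝ) < T.card := by exact_mod_cast hT.card_pos
  have hSl : ∀ l ∈ Λ, (T.card : ℝ) / 2 ≤ ‖S l‖ := by
    intro l hl
    have h1 := hΛ l hl
    have h2 : (T.card : ℝ) ^ 2 ≤ (2 * ‖S l‖) ^ 2 := by
      calc (T.card : ℝ) ^ 2 ≤ 4 * wt T l := h1
        _ = (2 * ‖S l‖) ^ 2 := by unfold wt; simp only [hS]; ring
    have h3 := (sq_le_sq₀ hTpos.le (by positivity)).mp h2
    linarith
  have hc1 : ∀ l, ‖c l‖ ≤ 1 := by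
    intro l
    simp only [hc]
    rw [norm_div, RCLike.norm_conj, Complex.norm_real, norm_norm]
    exact div_self_le_one _
  have hcS : ∀ l ∈ Λ, (c l * S l).re = ‖S l‖ := by
    intro l hl
    have h0 : (0 : ℝ) < ‖S l‖ := lt_of_lt_of_le (by positivity) (hSl l hl)
    have h1 : c l * S l = (‖S l‖ : ℂ) := by
      simp only [hc]
      rw [div_mul_eq_mul_div, mul_comm ((starRingEnd ℂ) (S l)), Complex.mul_conj, Complex.normSq_eq_norm_sq]
      have : (‖S l‖ : ℂ) ≠ 0 := by exact_mod_cast h0.ne'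
      push_cast
      field_simp
    rw [h1, Complex.ofReal_re]
  set C : ℝ := Real.cosh (1 / 2) with hC
  set D : ℝ := Real.sinh (1 / 2) with hD
  have hC0 : 0 < C := Real.cosh_pos _
  have hD0 : 0 ≤ D := Real.sinh_nonneg_iff.mpr (by norm_num)
  have hDC : D ≤ C := (Real.sinh_lt_cosh _).le
  set u : ZMod N → ZMod N → ℝ := fun l y => (c l * ψ (l * y)).re with hu
  have hu1 : ∀ l y, |u l y| ≤ 1 := by
    intro l y
    refine (Complex.abs_re_le_norm _).trans ?_
    rw [norm_mul, ψ_norm, mul_one]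
    exact hc1 l
  have hmean : (Λ.card : ℝ) * (T.card / 2) ≤ ∑ y ∈ T, ∑ l ∈ Λ, u l y := by
    rw [Finset.sum_comm]
    have h1 : ∀ l ∈ Λ, (T.card : ℝ) / 2 ≤ ∑ y ∈ T, u l y := by
      intro l hl
      have : ∑ y ∈ T, u l y = (c l * S l).re := by
        simp only [hu, hS]
        rw [Finset.mul_sum, Complex.re_sum]
      rw [this, hcS l hl]
      exact hSl l hl
    calc (Λ.card : ℝ) * (T.card / 2) = ∑ l ∈ Λ, (T.card : ℝ) / 2 := by
          rw [Finset.sum_const, nsmul_eq_mul]
      _ ≤ _ := Finset.sum_le_sum h1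
  -- upper bound over `X`
  have hprod : ∀ y, Real.exp (1 / 2 * ∑ l ∈ Λ, u l y) ≤ ∏ l ∈ Λ, (C + u l y * D) := by
    intro y
    rw [Finset.mul_sum, Real.exp_sum]
    refine Finset.prod_le_prod (fun l _ => (Real.exp_pos _).le) fun l _ => ?_
    have := Real.exp_mul_le_cosh_add_mul_sinh (hu1 l y) (1 / 2)
    rw [mul_comm (1 / 2 : ℝ)]
    exact this
  have hX0 : (0 : ℝ) ≤ X.card := Nat.cast_nonneg _
  have hmain : ∑ y ∈ X, ∏ l ∈ Λ, (C + u l y * D) ≤ 2 * C ^ Λ.card * X.card := by
    have h1 := expand C D c X Λ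
    have h2 : ∑ y ∈ X, ∏ l ∈ Λ, (C + u l y * D) ≤
        ∑ e ∈ Fintype.piFinset (fun _ : Λ => ({-1, 0, 1} : Finset ℤ)),
          (∏ l : Λ, ‖W C D c l (e l)‖) * ((if e = 0 then (X.card : ℝ) else 0) + (1 / 2) ^ k₀ * X.card) := by
      calc ∑ y ∈ X, ∏ l ∈ Λ, (C + u l y * D)
          ≤ ‖((∑ y ∈ X, ∏ l ∈ Λ, (C + (c l * ψ (l * y)).re * D) : ℝ) : ℂ)‖ := by
            rw [Complex.norm_real]; exact le_abs_self _
        _ ≤ ∑ e ∈ Fintype.piFinset (fun _ : Λ => ({-1, 0, 1} : Finset ℤ)),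
            ‖(∏ l : Λ, W C D c l (e l)) * ∑ y ∈ X, ψ ((∑ l : Λ, (e l : ZMod N) * l) * y)‖ := by
            rw [h1]; exact norm_sum_le _ _
        _ ≤ _ := by
            refine Finset.sum_le_sum fun e he => ?_
            rw [norm_mul, norm_prod]
            refine mul_le_mul_of_nonneg_left ?_ (Finset.prod_nonneg fun _ _ => norm_nonneg _)
            by_cases h0 : e = 0
            · rw [if_pos h0]
              have h3 : ‖∑ y ∈ X, ψ ((∑ l : Λ, (e l : ZMod N) * l) * y)‖ ≤ X.card := by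
                refine (norm_sum_le _ _).trans ?_
                simp [ψ_norm]
              have h4 : (0 : ℝ) ≤ (1 / 2) ^ k₀ * X.card := by positivity
              linarith
            · rw [if_neg h0, zero_add]
              set e' : ZMod N → ℤ := fun l => if h : l ∈ Λ then e ⟨l, h⟩ else 0 with he'
              have h3 : ∀ l : Λ, e' l = e l := by
                intro l
                simp only [he']
                rw [dif_pos l.2]
              have h4 : ∑ l ∈ Λ, (e' l : ZMod N) * l = ∑ l : Λ, (e l : ZMod N) * l := by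
                rw [← Finset.sum_coe_sort Λ (fun l => (e' l : ZMod N) * l)]
                exact Finset.sum_congr rfl fun l _ => by rw [h3]
              have h5 := hdis e' ?_ ?_
              · rw [h4] at h5; exact h5
              · intro l
                simp only [he']
                split_ifs with hl
                · have h6 := Fintype.mem_piFinset.mp he ⟨l, hl⟩
                  simp only [Finset.mem_insert, Finset.mem_singleton] at h6
                  rcases h6 with h | h | h <;> rw [h] <;> decide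
                · decide
              · by_contra hcon
                push Not at hcon
                apply h0
                funext l
                rw [← h3 l]
                exact hcon l l.2
    have h3 : ∑ e ∈ Fintype.piFinset (fun _ : Λ => ({-1, 0, 1} : Finset ℤ)),
          (∏ l : Λ, ‖W C D c l (e l)‖) * ((if e = 0 then (X.card : ℝ) else 0) + (1 / 2) ^ k₀ * X.card) =
        C ^ Λ.card * X.card + (∏ l : Λ, ∑ j ∈ ({-1, 0, 1} : Finset ℤ), ‖W C D c l j‖) *
          ((1 / 2) ^ k₀ * X.card) := by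
      simp_rw [mul_add]
      rw [Finset.sum_add_distrib, ← Finset.sum_mul, Finset.prod_univ_sum]
      congr 1
      rw [Finset.sum_eq_single (0 : Λ → ℤ)]
      · rw [if_pos rfl]
        congr 1
        have : ∀ l : Λ, ‖W C D c l ((0 : Λ → ℤ) l)‖ = C := by
          intro l
          unfold W
          rw [if_pos (by rfl), Complex.norm_real, Real.norm_of_nonneg hC0.le]
        simp only [this, Finset.prod_const, Finset.card_univ, Fintype.card_coe]
      · intro e _ he
        rw [if_neg he, mul_zero]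
      · intro h
        exfalso
        apply h
        rw [Fintype.mem_piFinset]
        intro l
        simp
    have h4 : (∏ l : Λ, ∑ j ∈ ({-1, 0, 1} : Finset ℤ), ‖W C D c l j‖) ≤ (2 * C) ^ Λ.card := by
      calc (∏ l : Λ, ∑ j ∈ ({-1, 0, 1} : Finset ℤ), ‖W C D c l j‖) ≤ ∏ _l : Λ, (2 * C) := by
            refine Finset.prod_le_prod (fun l _ => Finset.sum_nonneg fun _ _ => norm_nonneg _) fun l _ => ?_
            have := W_norm C D hC0.le hD0 c l (hc1 l)
            linarith
        _ = (2 * C) ^ Λ.card := by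
            simp only [Finset.prod_const, Finset.card_univ, Fintype.card_coe]
    have h5 : (2 : ℝ) ^ Λ.card * (1 / 2) ^ k₀ ≤ 1 := by
      have : (2 : ℝ) ^ Λ.card ≤ 2 ^ k₀ := pow_le_pow_right₀ (by norm_num) hk
      calc (2 : ℝ) ^ Λ.card * (1 / 2) ^ k₀ ≤ 2 ^ k₀ * (1 / 2) ^ k₀ :=
            mul_le_mul_of_nonneg_right this (by positivity)
        _ = 1 := by rw [← mul_pow]; norm_num
    calc ∑ y ∈ X, ∏ l ∈ Λ, (C + u l y * D) ≤ _ := h2
      _ = _ := h3
      _ ≤ C ^ Λ.card * X.card + (2 * C) ^ Λ.card * ((1 / 2) ^ k₀ * X.card) := by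
          have : (0 : ℝ) ≤ (1 / 2) ^ k₀ * X.card := by positivity
          have := mul_le_mul_of_nonneg_right h4 this
          linarith
      _ = C ^ Λ.card * X.card + (2 ^ Λ.card * (1 / 2) ^ k₀) * (C ^ Λ.card * X.card) := by
          rw [mul_pow]; ring
      _ ≤ C ^ Λ.card * X.card + 1 * (C ^ Λ.card * X.card) := by
          have : (0 : ℝ) ≤ C ^ Λ.card * X.card := by positivity
          have := mul_le_mul_of_nonneg_right h5 this
          linarith
      _ = 2 * C ^ Λ.card * X.card := by ring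
  -- lower bound over `T`
  have hlow : Real.exp (Λ.card / 4) * T.card ≤ ∑ y ∈ T, Real.exp (1 / 2 * ∑ l ∈ Λ, u l y) := by
    set m : ℝ := Λ.card / 4 with hm
    have h1 : ∀ y ∈ T, Real.exp m * (1 + (1 / 2 * ∑ l ∈ Λ, u l y - m)) ≤ Real.exp (1 / 2 * ∑ l ∈ Λ, u l y) := by
      intro y _
      have h2 := Real.add_one_le_exp (1 / 2 * ∑ l ∈ Λ, u l y - m)
      calc Real.exp m * (1 + (1 / 2 * ∑ l ∈ Λ, u l y - m))
          ≤ Real.exp m * Real.exp (1 / 2 * ∑ l ∈ Λ, u l y - m) :=
            mul_le_mul_of_nonneg_left (by linarith) (Real.exp_pos _).le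
        _ = _ := by rw [← Real.exp_add]; congr 1; ring
    refine le_trans ?_ (Finset.sum_le_sum h1)
    rw [← Finset.mul_sum]
    refine mul_le_mul_of_nonneg_left ?_ (Real.exp_pos _).le
    rw [Finset.sum_add_distrib, Finset.sum_sub_distrib, ← Finset.mul_sum]
    simp only [Finset.sum_const, nsmul_eq_mul, mul_one]
    have h3 : (T.card : ℝ) * m ≤ 1 / 2 * ∑ y ∈ T, ∑ l ∈ Λ, u l y := by
      rw [hm]; nlinarith [hmean]
    linarith
  have hcosh : C ≤ Real.exp (1 / 8) := by
    have := Real.cosh_le_exp_half_sq (1 / 2)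
    rw [hC]
    refine this.trans (le_of_eq ?_)
    congr 1
    norm_num
  have hfin : Real.exp (Λ.card / 4) * T.card ≤ 2 * Real.exp (Λ.card / 8) * (Real.exp q * T.card) := by
    calc Real.exp (Λ.card / 4) * T.card ≤ ∑ y ∈ T, Real.exp (1 / 2 * ∑ l ∈ Λ, u l y) := hlow
      _ ≤ ∑ y ∈ X, Real.exp (1 / 2 * ∑ l ∈ Λ, u l y) :=
          Finset.sum_le_sum_of_subset_of_nonneg hTX fun _ _ _ => (Real.exp_pos _).le
      _ ≤ ∑ y ∈ X, ∏ l ∈ Λ, (C + u l y * D) := Finset.sum_le_sum fun y _ => hprod y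
      _ ≤ 2 * C ^ Λ.card * X.card := hmain
      _ ≤ 2 * Real.exp (Λ.card / 8) * (Real.exp q * T.card) := by
          have h1 : C ^ Λ.card ≤ Real.exp (Λ.card / 8) := by
            calc C ^ Λ.card ≤ Real.exp (1 / 8) ^ Λ.card := pow_le_pow_left₀ hC0.le hcosh _
              _ = _ := by rw [← Real.exp_nat_mul]; congr 1; ring
          exact mul_le_mul (by linarith) hXT hX0 (by positivity)
  have h1 : Real.exp (Λ.card / 4) ≤ Real.exp (Real.log 2 + Λ.card / 8 + q) := by
    rw [Real.exp_add, Real.exp_add, Real.exp_log (by norm_num)]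
    have : Real.exp (Λ.card / 4) * T.card ≤ (2 * Real.exp (Λ.card / 8) * Real.exp q) * T.card := by
      linarith [hfin]
    exact le_of_mul_le_mul_right this hTpos
  have h2 := Real.exp_le_exp.mp h1
  have h3 := Real.log_two_lt_d9
  linarith

end Pool.Agent.Y162.CS
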